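import Pool.Agent.Helper41.FX.StK2

/-!
# Project FX, chapter K, module C3A
-/

set_option autoImplicit false

namespace Pool.Agent.Helper1.FX

open Polynomial Pool.Agent.Helper72.FX Pool.Agent.Helper41.FX

private theorem c3a_ck {A : Type} [CommRing A] [IsNoetherianRing A] {P : MC A} {Λ : Type}
    [AddCommGroup Λ] (χ : AF A P Λ) (hP : Gd P) (x : A) (N : Type) [AddCommGroup N] [Module A N]
    (hf : Module.Finite A N) (hN : P N) : χ.f (Ck x N) = χ.f (Kn x N) := by
  have h1 := χ.quot (LinearMap.range (LinearMap.lsmul A N x)) hf hN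
  have h2 := χ.quot (LinearMap.ker (LinearMap.lsmul A N x)) hf hN
  have h3 : χ.f (N ⧸ LinearMap.ker (LinearMap.lsmul A N x)) =
      χ.f (LinearMap.range (LinearMap.lsmul A N x)) := by
    refine χ.equiv hP (LinearMap.quotKerEquivRange _) inferInstance ?_
    exact hP.inj _ N (LinearMap.range (LinearMap.lsmul A N x)).subtype
      (Submodule.injective_subtype _) hN
  change χ.f (N ⧸ LinearMap.range (LinearMap.lsmul A N x)) =
    χ.f (LinearMap.ker (LinearMap.lsmul A N x))
  rw [h3] at h2
  have h4 := h1.symm.trans h2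
  rw [add_comm (χ.f (LinearMap.ker (LinearMap.lsmul A N x)))] at h4
  exact add_left_cancel h4

private theorem kil_iff {A : Type} [CommRing A] (s : Set A) (M : Type) [AddCommGroup M]
    [Module A M] : kil (Ideal.span s) M ↔ ∀ x ∈ s, ∀ y : M, x • y = 0 := by
  constructor
  · intro h x hx
    exact h x (Ideal.subset_span hx)
  · intro h x hx y
    induction hx using Submodule.span_induction with
    | mem x hx => exact h x hx y
    | zero => exact zero_smul _ _
    | add u v _ _ hu hv => rw [add_smul, hu, hv, add_zero]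
    | smul a u _ hu => rw [smul_eq_mul, mul_smul, hu, smul_zero]

theorem hC3A : StSNK → StDQ → StCKQ → StF3 → StF4 → StZA → StC3A := by
  intro hSNK hDQ hCKQ hF3 hF4 hZA χ hD N _ _ hfN hJN hrN
  have hle1 : Ideal.span {e1, e2, ss} ≤ Ideal.span {e1, e2} ⊔ Ideal.span {ss} := by
    rw [Ideal.span_le]
    rintro x (rfl | rfl | rfl)
    · exact Ideal.mem_sup_left (Ideal.subset_span (by simp))
    · exact Ideal.mem_sup_left (Ideal.subset_span (by simp))
    · exact Ideal.mem_sup_right (Ideal.subset_span (by simp))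
  obtain ⟨θ, hθ⟩ := hDQ hSNK P0 (Ideal.span {e1, e2}) ss (ZMod 2)
    (χ.mono (Q := kil (Ideal.span {e1, e2} ⊔ Ideal.span {ss})) fun M _ _ h => kil_mono hle1 h)
  have hθ' : ∀ (M : Type) [AddCommGroup M] [Module P0 M], θ.f M = χ.f (Ck ss M) - χ.f (Kn ss M) :=
    fun M _ _ => hθ M
  have hG1 : Gd (kil (Ideal.span {e1, e2, ss} : Ideal P0)) := gd_kil _
  have hG2 : Gd (kil (Ideal.span {e1, e2, v10 3} : Ideal P0)) := gd_kil _
  -- submodules and quotients by ss
  have hss : ∀ (M : Type) [AddCommGroup M] [Module P0 M], kil (Ideal.span {e1, e2}) M →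
      kil (Ideal.span {e1, e2, ss}) (Ck ss M) ∧ kil (Ideal.span {e1, e2, ss}) (Kn ss M) := by
    intro M _ _ hM
    constructor
    · rw [kil_iff]
      rintro x (rfl | rfl | rfl) y
      · obtain ⟨z, rfl⟩ := Submodule.mkQ_surjective _ y
        rw [← map_smul, hM _ (Ideal.subset_span (by simp)), map_zero]
      · obtain ⟨z, rfl⟩ := Submodule.mkQ_surjective _ y
        rw [← map_smul, hM _ (Ideal.subset_span (by simp)), map_zero]
      · obtain ⟨z, rfl⟩ := Submodule.mkQ_surjective _ y
        rw [← map_smul, Submodule.mkQ_apply, Submodule.Quotient.mk_eq_zero]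
        exact ⟨z, rfl⟩
    · rw [kil_iff]
      rintro x (rfl | rfl | rfl) y
      · exact Subtype.ext (hM _ (Ideal.subset_span (by simp)) _)
      · exact Subtype.ext (hM _ (Ideal.subset_span (by simp)) _)
      · exact Subtype.ext (LinearMap.mem_ker.1 y.2)
  -- modules killed by rho: J_rho
  have hle2 : Ideal.span {e1, e2} ≤ Ideal.span {e1, e2, v10 3} := by
    refine Ideal.span_mono ?_
    rintro x (rfl | rfl)
    · simp
    · simp
  have hd : ∀ (M : Type) [AddCommGroup M] [Module P0 M], Module.Finite P0 M →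
      kil (Ideal.span {e1, e2}) M → (∀ y : M, pD • y = 0) → θ.f M = 0 := by
    intro M _ _ hf hM hy
    rw [hθ' M, hD (Ck ss M) inferInstance (hss M hM).1 ?_, hD (Kn ss M) inferInstance
      (hss M hM).2 ?_, sub_zero]
    · intro y
      exact Subtype.ext (hy _)
    · intro y
      obtain ⟨z, rfl⟩ := Submodule.mkQ_surjective _ y
      rw [← map_smul, hy, map_zero]
  have hs : ∀ (M : Type) [AddCommGroup M] [Module P0 M], Module.Finite P0 M →
      kil (Ideal.span {e1, e2, v10 3}) M → (∀ y : M, v10 5 • y = 0) → θ.f M = 0 := by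
    intro M _ _ hf hM hy
    have h0 : ∀ y : M, ss • y = 0 := by
      intro y
      rw [ss, sub_smul, hy, hM (v10 3) (Ideal.subset_span (by simp)), sub_zero]
    have hMs : kil (Ideal.span {e1, e2, ss}) M := by
      rw [kil_iff]
      rintro x (rfl | rfl | rfl) y
      · exact hM _ (Ideal.subset_span (by simp)) y
      · exact hM _ (Ideal.subset_span (by simp)) y
      · exact h0 y
    rw [hθ' M, c3a_ck χ hG1 ss M hf hMs, sub_self]
  have hmain : ∀ (M : Type) [AddCommGroup M] [Module P0 M], Module.Finite P0 M →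
      kil (Ideal.span {e1, e2, v10 3}) M → (∀ y : M, (v10 5 * pA) • y = 0) → θ.f M = 0 := by
    intro M _ _ hf hM hy
    have hMJ : kil (Ideal.span {e1, e2}) M := kil_mono hle2 hM
    rw [θ.quot (LinearMap.range (LinearMap.lsmul P0 M (v10 5))) hf hMJ]
    rw [hd _ inferInstance ((gd_kil _).inj _ M
      (LinearMap.range (LinearMap.lsmul P0 M (v10 5))).subtype (Submodule.injective_subtype _)
      hMJ) ?_, hs _ inferInstance (hG2.surj M _
      (LinearMap.range (LinearMap.lsmul P0 M (v10 5))).mkQ (Submodule.mkQ_surjective _) hM) ?_,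
      add_zero]
    · intro y
      obtain ⟨z, rfl⟩ := Submodule.mkQ_surjective _ y
      rw [← map_smul, Submodule.mkQ_apply, Submodule.Quotient.mk_eq_zero]
      exact ⟨z, rfl⟩
    · rintro ⟨y, z, rfl⟩
      refine Subtype.ext ?_
      change pD • (v10 5 • z) = 0
      have e : pD * v10 5 = v10 5 * pA + (v10 5 * v10 2 * v10 5 * v10 7 -
          v10 5 * v10 2 * kx (v10 0) (v10 1) (v10 2) * v10 4) * v10 3 +
          (-(v10 5 * v10 2 * kx (v10 0) (v10 1) (v10 2))) * e1 := by
        rw [pD, pA, e1, E1, pnu]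
        ring
      rw [smul_smul, e, add_smul, add_smul, hy, mul_smul _ (v10 3),
        hM (v10 3) (Ideal.subset_span (by simp)), mul_smul _ e1,
        hM e1 (Ideal.subset_span (by simp)), smul_zero, smul_zero, add_zero, add_zero]
  have hquo : θ.f (P0 ⧸ (Ideal.span {e1, e2, v10 3} : Ideal P0)) = 0 := by
    obtain ⟨⟨a⟩, b⟩ := hCKQ P0 (Ideal.span {e1, e2, v10 3}) ss
    obtain ⟨⟨a'⟩, b'⟩ := hCKQ P0 (Ideal.span {e1, e2, ss}) (v10 5)
    have hb : Subsingleton (Kn ss (P0 ⧸ (Ideal.span {e1, e2, v10 3} : Ideal P0))) := by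
      refine b fun r hr => hF4 r ?_
      have h1 : v10 3 * r ∈ (Ideal.span {e1, e2, v10 3} : Ideal P0) :=
        Ideal.mul_mem_right _ _ (Ideal.subset_span (by simp))
      have h2 : v10 5 * r = ss * r + v10 3 * r := by rw [ss]; ring
      rw [h2]
      exact Ideal.add_mem _ hr h1
    have hb' : Subsingleton (Kn (v10 5) (P0 ⧸ (Ideal.span {e1, e2, ss} : Ideal P0))) :=
      b' fun r hr => hF3 r hr
    have hI : (Ideal.span {e1, e2, v10 3} ⊔ Ideal.span {ss} : Ideal P0) =
        Ideal.span {e1, e2, ss} ⊔ Ideal.span {v10 5} := by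
      have hx5 : v10 5 = ss + v10 3 := by rw [ss]; ring
      have hx3 : v10 3 = v10 5 - ss := by rw [ss]; ring
      apply le_antisymm
      · refine sup_le ?_ ?_
        · rw [Ideal.span_le]
          rintro x (rfl | rfl | rfl)
          · exact Ideal.mem_sup_left (Ideal.subset_span (by simp))
          · exact Ideal.mem_sup_left (Ideal.subset_span (by simp))
          · rw [SetLike.mem_coe, hx3]
            exact Ideal.sub_mem _ (Ideal.mem_sup_right (Ideal.subset_span (by simp)))
              (Ideal.mem_sup_left (Ideal.subset_span (by simp)))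
        · rw [Ideal.span_le]
          rintro x rfl
          exact Ideal.mem_sup_left (Ideal.subset_span (by simp))
      · refine sup_le ?_ ?_
        · rw [Ideal.span_le]
          rintro x (rfl | rfl | rfl)
          · exact Ideal.mem_sup_left (Ideal.subset_span (by simp))
          · exact Ideal.mem_sup_left (Ideal.subset_span (by simp))
          · exact Ideal.mem_sup_right (Ideal.subset_span (by simp))
        · rw [Ideal.span_le]
          rintro x rfl
          rw [SetLike.mem_coe, hx5]
          exact Ideal.add_mem _ (Ideal.mem_sup_right (Ideal.subset_span (by simp)))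
            (Ideal.mem_sup_left (Ideal.subset_span (by simp)))
    have hk : kil (Ideal.span {e1, e2, ss}) (P0 ⧸ (Ideal.span {e1, e2, ss} ⊔ Ideal.span {v10 5} : Ideal P0)) :=
      kil_mono le_sup_left (kil_quot _)
    rw [hθ', χ.of_subsingleton hG1 (Kn ss (P0 ⧸ (Ideal.span {e1, e2, v10 3} : Ideal P0))), sub_zero,
      χ.equiv hG1 (a.trans (Submodule.quotEquivOfEq _ _ hI)) inferInstance hk,
      ← χ.equiv hG1 a' inferInstance hk,
      c3a_ck χ hG1 (v10 5) (P0 ⧸ (Ideal.span {e1, e2, ss} : Ideal P0)) inferInstance (kil_quot _),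
      χ.of_subsingleton hG1]
  have hfin := hZA (ZMod 2) (θ.mono (Q := kil (Ideal.span {e1, e2, v10 3})) fun M _ _ h => kil_mono hle2 h)
    (fun M _ _ hf hM hy => hmain M hf hM hy) hquo N hfN (by
      rw [kil_iff]
      rintro x (rfl | rfl | rfl) y
      · exact hJN _ (Ideal.subset_span (by simp)) y
      · exact hJN _ (Ideal.subset_span (by simp)) y
      · exact hrN y)
  have h := hθ' N
  change θ.f N = 0 at hfin
  rw [hfin] at h
  exact (sub_eq_zero.1 h.symm)

end Pool.Agent.Helper1.FX
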