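import Pool.Agent.Helper87.FX.StC

set_option autoImplicit false

namespace Pool.Agent.Helper1.FX

open Pool.Agent.Helper87.FX
open Set Topology Metric Filter
open scoped ContDiff

theorem hSMO : StDER → StSMO := by
  intro hDER n F hF
  obtain ⟨hsm, hder⟩ := hDER n F
  refine ⟨isClosed_eq hsm.continuous continuous_const, ?_⟩
  intro y hy c
  by_cases hU : y.1 = 0
  · by_cases hV : y.2.1 = 0
    · have h0 : MvPolynomial.eval y.2.2 F = 0 := by
        have h1 : y.1 * y.2.1 - MvPolynomial.eval y.2.2 F = 0 := hy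
        rw [hU, zero_mul, zero_sub, neg_eq_zero] at h1
        exact h1
      obtain ⟨l, hl⟩ := hF.reg y.2.2 h0
      have hl' : dj F y.2.2 l ≠ 0 := hl
      refine ⟨((0 : ℂ), (0 : ℂ), Pi.single l (-(c / dj F y.2.2 l))), ?_⟩
      rw [hder]
      have h2 : ∑ j, dj F y.2.2 j * (Pi.single l (-(c / dj F y.2.2 l)) : Fin n → ℂ) j
          = dj F y.2.2 l * (-(c / dj F y.2.2 l)) := by
        rw [Finset.sum_eq_single l]
        · rw [Pi.single_eq_same]
        · intro b _ hb
          rw [Pi.single_eq_of_ne hb, mul_zero]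
        · intro h
          exact absurd (Finset.mem_univ l) h
      show y.1 * (0 : ℂ) + y.2.1 * (0 : ℂ) -
        ∑ j, dj F y.2.2 j * (Pi.single l (-(c / dj F y.2.2 l)) : Fin n → ℂ) j = c
      rw [h2]
      field_simp
      ring
    · refine ⟨(c / y.2.1, (0 : ℂ), (0 : Fin n → ℂ)), ?_⟩
      rw [hder]
      show y.1 * (0 : ℂ) + y.2.1 * (c / y.2.1) - ∑ j, dj F y.2.2 j * (0 : Fin n → ℂ) j = c
      simp only [Pi.zero_apply, mul_zero, Finset.sum_const_zero, zero_add, sub_zero]
      field_simp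
  · refine ⟨((0 : ℂ), c / y.1, (0 : Fin n → ℂ)), ?_⟩
    rw [hder]
    show y.1 * (c / y.1) + y.2.1 * (0 : ℂ) - ∑ j, dj F y.2.2 j * (0 : Fin n → ℂ) j = c
    simp only [Pi.zero_apply, mul_zero, Finset.sum_const_zero, add_zero, sub_zero]
    field_simp

end Pool.Agent.Helper1.FX
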