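import Pool.Agent.Helper84.FX.StX

/-!
# Project FX, chapter T, module T5B
-/

set_option autoImplicit false

namespace Pool.Agent.Helper1.FX

open Set Pool.Agent.Helper84.FX Pool.Agent.Helper72.FX

private theorem t5b_dm {E : Type} (A B : Set E) (p : E → Prop) :
    {q : E × ℝ | q ∈ DM A B ∧ p q.1} = DM {z | z ∈ A ∧ p z} {z | z ∈ B ∧ p z} := by
  ext q
  constructor
  · rintro ⟨⟨h0, h1, h2, h3⟩, hp⟩
    exact ⟨h0, h1, fun h => ⟨h2 h, hp⟩, fun h => ⟨h3 h, hp⟩⟩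
  · rintro ⟨h0, h1, h2, h3⟩
    refine ⟨⟨h0, h1, fun h => (h2 h).1, fun h => (h3 h).1⟩, ?_⟩
    rcases lt_or_ge q.2 1 with h | h
    · exact (h2 h).2
    · exact (h3 (lt_of_lt_of_le one_pos h)).2

private theorem t5b_cont (j : Fin 10) (A : Set (Fin 10 → ℂ)) :
    ContinuousOn (fun z : Fin 10 → ℂ => z j) A := (continuous_apply j).continuousOn

theorem hT5B : StGL → StTDM → StTWR → StTNR → StTWS → StTNS → StB0 → StB10 → StB11 → StDMP →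
    StT5B := by
  intro hGL hTDM hTWR hTNR hTWS hTNS hB0 hB10 hB11 hDMP U hU
  have hO : IsOpen U := hU.1
  have h0 : (0 : ℂ) ∉ U := by
    obtain ⟨s, _, hs⟩ := hU.2
    exact fun h => (hs 0 h).2 rfl
  obtain ⟨a1, a2, a3⟩ := hTNR U hO h0
  obtain ⟨b1, b2, b3⟩ := hTNS U hO h0
  have hM := (hDMP U).1
  refine hGL ((Fin 10 → ℂ) × ℝ) (Fin 10 → ℂ) ℂ (DM (N1 U) (N2 U)) (WW U) Prod.fst
    (fun z => z 3) hM (hTWR U hO h0) ?_ (hB0 U) ?_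
  · exact hTDM (Fin 10 → ℂ) ℂ (N1 U) (N2 U) (fun z => z 3) a1 a2 a3 (t5b_cont 3 _)
  · refine hGL ((Fin 10 → ℂ) × ℝ) (Fin 10 → ℂ) ℂ {q | q ∈ DM (N1 U) (N2 U) ∧ q.1 3 ≠ 0}
      {z | z ∈ WW U ∧ z 3 ≠ 0} Prod.fst (fun z => z 5) ?_ (hTWS U hO h0) ?_ (hB10 U h0)
      (hB11 U hU)
    · exact ⟨hM.1.mono fun q hq => hq.1, fun q hq => ⟨hM.2 hq.1, hq.2⟩⟩
    · have h := hTDM (Fin 10 → ℂ) ℂ {z | z ∈ N1 U ∧ z 3 ≠ 0} {z | z ∈ N2 U ∧ z 3 ≠ 0}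
        (fun z => z 5) b1 b2 b3 (t5b_cont 5 _)
      have e := t5b_dm (N1 U) (N2 U) (fun z : Fin 10 → ℂ => z 3 ≠ 0)
      rw [e]
      exact h

end Pool.Agent.Helper1.FX
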