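import Pool.Agent.Helper84.FX.StT

set_option autoImplicit false

namespace Pool.Agent.Helper1.FX

open Set
open Pool.Agent.Helper84.FX

private theorem mp_const {E : Type} [TopologicalSpace E] (X : Set E) :
    Mp X (univ : Set Unit) (fun _ => ()) :=
  ⟨continuousOn_const, fun _ _ => mem_univ _⟩

/-- clause (1) -/
private theorem c1 (hHEQ : StHEQ) (E : Type) [TopologicalSpace E] (X : Set E) (x₀ : E)
    (H : ℝ × E → E) (hx₀ : x₀ ∈ X) (hH : Mp (II ×ˢ X) X H) (h0 : ∀ x ∈ X, H (0, x) = x)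
    (h1 : ∀ x ∈ X, H (1, x) = x₀) : WC X := by
  refine ⟨⟨x₀, hx₀⟩, ?_⟩
  refine hHEQ E Unit X univ (fun _ => ()) (fun _ => x₀) (mp_const X)
    ⟨continuousOn_const, fun _ _ => hx₀⟩ ?_ ?_
  · refine ⟨fun q => H (1 - q.1, q.2), ⟨?_, ?_⟩, ?_, ?_⟩
    · refine hH.1.comp (Continuous.continuousOn (by fun_prop)) ?_
      intro q hq
      exact ⟨⟨by linarith [hq.1.2], by linarith [hq.1.1]⟩, hq.2⟩
    · intro q hq
      exact hH.2 ⟨⟨by linarith [hq.1.2], by linarith [hq.1.1]⟩, hq.2⟩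
    · intro x hx
      show H (1 - 0, x) = x₀
      rw [sub_zero]; exact h1 x hx
    · intro x hx
      show H (1 - 1, x) = x
      rw [sub_self]; exact h0 x hx
  · refine ⟨fun _ => (), ⟨continuousOn_const, fun _ _ => mem_univ _⟩, ?_, ?_⟩
    · intro x _; rfl
    · intro x _; rfl

/-- clause (2) -/
private theorem c2 (hCN2 : StCN2) (E F : Type) [TopologicalSpace E] [TopologicalSpace F]
    (X : Set E) (Y : Set F) (f : E → F) (hX : WC X) (hY : WC Y) (hf : Mp X Y f) : WE X Y f :=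
  hCN2 E F Unit X Y univ f (fun _ => ()) hf hY.2 hX.2

/-- clause (3) -/
private theorem c3 (hCMP : StCMP) (E F : Type) [Nonempty E] [TopologicalSpace E]
    [TopologicalSpace F] (X : Set E) (Y : Set F) (f : E → F) (hf : WE X Y f) (hY : WC Y) :
    WC X := by
  refine ⟨?_, hCMP E F Unit X Y univ f (fun _ => ()) hf hY.2⟩
  obtain ⟨y, hy⟩ := hY.1
  obtain ⟨c, H, hc, -⟩ := hf.2 0 (fun _ => Classical.arbitrary E) (fun _ => y)
    ⟨continuousOn_const, by
      rintro u ⟨-, i, -⟩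
      exact i.elim0⟩ ⟨continuousOn_const, fun _ _ => hy⟩ (by
      rintro u ⟨-, i, -⟩
      exact i.elim0)
  exact ⟨c (fun _ => 0), hc.2 (fun i => i.elim0)⟩

/-- clause (5) -/
private theorem c5 (hLFT : StLFT) (E : Type) [TopologicalSpace E] (X : Set E) (hX : WC X) (d : ℕ)
    (C D : Finset (Cel d)) (hC : Cx C) (hD : Cx D) (hDC : D ⊆ C) (a : (Fin d → ℝ) → E)
    (ha : Mp (spt D) X a) : ∃ c : (Fin d → ℝ) → E, Mp (spt C) X c ∧ ∀ u ∈ spt D, c u = a u := by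
  obtain ⟨c, H, hc, hca, -⟩ := hLFT E Unit X univ (fun _ => ()) hX.2 d C D hC hD hDC a
    (fun _ => ()) (fun _ => ()) ha ⟨continuousOn_const, fun _ _ => mem_univ _⟩
    ⟨continuousOn_const, fun _ _ => mem_univ _⟩ (fun _ _ => rfl) (fun _ _ => rfl)
  exact ⟨c, hc, hca⟩

theorem hWCA (hHEQ : StHEQ) (hCN2 : StCN2) (hCMP : StCMP) (hCN3 : StCN3) (hLFT : StLFT) :
    StWCA := by
  refine ⟨?_, ?_, ?_, ?_, ?_⟩
  · intro E _ X x₀ H hx₀ hH h0 h1
    exact c1 hHEQ E X x₀ H hx₀ hH h0 h1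
  · intro E F _ _ X Y f hX hY hf
    exact c2 hCN2 E F X Y f hX hY hf
  · intros E F
    intros
    have := ‹Nonempty E›
    apply c3 hCMP E F <;> assumption
  · intro E F _ _ X Y f hf hX
    have hne : Nonempty E := ⟨hX.1.some⟩
    refine ⟨?_, ?_⟩
    · obtain ⟨x, hx⟩ := hX.1
      exact ⟨f x, hf.1.2 hx⟩
    · exact hCN3 E F Unit X Y univ f (fun _ => ()) (mp_const Y) hf hX.2
  · intro E _ X hX d C D hC hD hDC a ha
    exact c5 hLFT E X hX d C D hC hD hDC a ha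

end Pool.Agent.Helper1.FX
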